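import Pool.Agent.X286.Ti.Count

/-!
The number of translational tiles in `[n]^3` is not `O(n^2 (3^{1/3})^{n^3})`.
-/

namespace Pool.Agent.Results.MP_13da68_co.QuestionTwoFails

open Filter Topology Asymptotics

/-- `[n]^d = {1, …, n}^d`, as a set of integer points. -/
noncomputable def box (n d : ℕ) : Finset (Fin d → ℤ) :=
  Fintype.piFinset fun _ => Finset.Icc 1 (n:ℤ)

/-- `S` tiles `ℤ^d` by translations: there is a set `T` such that every `x` is `s + t` with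
`s ∈ S`, `t ∈ T` in exactly one way. -/
def Tiles {d : ℕ} (S : Finset (Fin d → ℤ)) : Prop :=
  ∃ T : Set (Fin d → ℤ), ∀ x : Fin d → ℤ,
    ∃! p : (Fin d → ℤ) × (Fin d → ℤ), p.1 ∈ S ∧ p.2 ∈ T ∧ p.1 + p.2 = x

open Classical in
/-- `t_{n,d}`: the number of subsets of `[n]^d` that tile `ℤ^d` by translations. -/
noncomputable def numTiles (n d : ℕ) : ℕ := ((box n d).powerset.filter Tiles).card

theorem numTiles_eq (n d : ℕ) : numTiles n d = Pool.Agent.X286.Ti.numTiles n d := rfl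

theorem root_pow (t : ℕ) : ((3:ℝ)^((1:ℝ)/3))^((3*t)^3) = 3^(3*t*(3*t)*t) := by
  have h : ((3:ℝ)^((1:ℝ)/3))^3 = 3 := by
    rw [← Real.rpow_natCast, ← Real.rpow_mul (by norm_num)]
    norm_num
  have e : (3*t)^3 = 3 * (3*t*(3*t)*t) := by ring
  rw [e, pow_mul, h]

theorem lowerBound : ∀ᶠ t : ℕ in atTop,
    (1/4 : ℝ) * ((3 * t : ℕ) : ℝ)^3 * ((3:ℝ)^((1:ℝ)/3))^((3*t)^3) ≤ (numTiles (3*t) 3 : ℝ) := by
  have h1 : Tendsto (fun t : ℕ => 27 * ((t:ℝ)^3 * (8/9:ℝ)^t)) atTop (𝓝 0) := by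
    have := (tendsto_pow_const_mul_const_pow_of_abs_lt_one 3 (r := (8/9:ℝ))
      (by rw [abs_lt]; constructor <;> norm_num)).const_mul 27
    simpa using this
  filter_upwards [h1.eventually (ge_mem_nhds (by norm_num : (0:ℝ) < 1/4)),
    eventually_ge_atTop 1] with t ht1 ht2
  have : NeZero t := ⟨by omega⟩
  have : NeZero (3*t) := ⟨by omega⟩
  have hl := Pool.Agent.X286.Ti.lower (t := t) (n := 3*t) rfl
  rw [← numTiles_eq] at hl
  rw [root_pow]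
  set M : ℕ := 3*t * ((3*t-1) * (3*t)) with hM
  set N : ℝ := 3^(3*t*(3*t)*t) with hN
  have hN0 : 0 < N := by positivity
  have hl' : (M:ℝ) * N ≤ numTiles (3*t) 3 + (M:ℝ)^2 * ((8 * 3^(3*t*(3*t)) / 9 : ℕ) : ℝ)^t := by
    rw [hN]
    exact_mod_cast hl
  have hg : ((8 * 3^(3*t*(3*t)) / 9 : ℕ) : ℝ)^t ≤ (8/9:ℝ)^t * N := by
    have : ((8 * 3^(3*t*(3*t)) / 9 : ℕ) : ℝ) ≤ 8/9 * 3^(3*t*(3*t)) := by
      refine (Nat.cast_div_le).trans (le_of_eq ?_)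
      push_cast
      ring
    calc ((8 * 3^(3*t*(3*t)) / 9 : ℕ) : ℝ)^t ≤ (8/9 * 3^(3*t*(3*t)))^t :=
          pow_le_pow_left₀ (Nat.cast_nonneg _) this t
      _ = _ := by rw [mul_pow, ← pow_mul]
  have hM1 : (M:ℝ) ≤ 27 * (t:ℝ)^3 := by
    have : M ≤ 27 * t^3 := by
      calc M ≤ 3*t * ((3*t) * (3*t)) :=
            Nat.mul_le_mul_left _ (Nat.mul_le_mul_right _ (Nat.sub_le _ _))
        _ = _ := by ring
    exact_mod_cast this
  have hM2 : (18:ℝ) * (t:ℝ)^3 ≤ M := by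
    have h3 : ((3*t-1 : ℕ) : ℝ) = 3 * t - 1 := by
      rw [Nat.cast_sub (by omega)]
      push_cast
      ring
    rw [hM]
    push_cast
    rw [h3]
    have ht0 : (1:ℝ) ≤ t := by exact_mod_cast ht2
    nlinarith [mul_nonneg (sub_nonneg.2 ht0) (sq_nonneg (t:ℝ))]
  have hM0 : (0:ℝ) ≤ M := Nat.cast_nonneg _
  have h4 : (M:ℝ) * (8/9:ℝ)^t ≤ 1/4 := by
    calc (M:ℝ) * (8/9:ℝ)^t ≤ 27 * (t:ℝ)^3 * (8/9:ℝ)^t :=
          mul_le_mul_of_nonneg_right hM1 (by positivity)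
      _ = 27 * ((t:ℝ)^3 * (8/9:ℝ)^t) := by ring
      _ ≤ _ := ht1
  have h5 : (M:ℝ)^2 * ((8 * 3^(3*t*(3*t)) / 9 : ℕ) : ℝ)^t ≤ M * (1/4) * N := by
    calc (M:ℝ)^2 * ((8 * 3^(3*t*(3*t)) / 9 : ℕ) : ℝ)^t ≤ (M:ℝ)^2 * ((8/9:ℝ)^t * N) :=
          mul_le_mul_of_nonneg_left hg (sq_nonneg _)
      _ = M * (M * (8/9:ℝ)^t) * N := by ring
      _ ≤ M * (1/4) * N := by
          apply mul_le_mul_of_nonneg_right _ hN0.le
          exact mul_le_mul_of_nonneg_left h4 hM0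
  have h6 : (1/4 : ℝ) * ((3 * t : ℕ) : ℝ)^3 * N ≤ (3/4) * M * N := by
    apply mul_le_mul_of_nonneg_right _ hN0.le
    push_cast
    nlinarith [pow_nonneg (Nat.cast_nonneg (α := ℝ) t) 3]
  linarith

/-- **Question 2 has a negative answer.** For `n = 3t` large, `[n]^3` contains at least
`(1/4) n^3 (3^{1/3})^{n^3}` tiles, so the bound `O(n^{d-1} (3^{1/3})^{n^d})` fails for `d = 3`. -/
theorem result :
    (∀ᶠ t : ℕ in atTop, (1/4 : ℝ) * ((3 * t : ℕ) : ℝ)^3 * ((3:ℝ)^((1:ℝ)/3))^((3*t)^3) ≤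
      (numTiles (3*t) 3 : ℝ)) ∧
    ¬ ∀ d : ℕ, 1 ≤ d → (fun n : ℕ => (numTiles n d : ℝ)) =O[atTop]
      (fun n : ℕ => (n:ℝ)^(d-1) * ((3:ℝ)^((1:ℝ)/3))^(n^d)) := by
  refine ⟨lowerBound, fun h => ?_⟩
  obtain ⟨K, hK⟩ := (h 3 (by norm_num)).bound
  have h1 : Tendsto (fun t : ℕ => 3 * t) atTop atTop :=
    tendsto_id.const_mul_atTop' (by norm_num)
  have h2 := h1.eventually hK
  obtain ⟨A, hA⟩ := exists_nat_gt (4 * K)
  obtain ⟨t, ht1, ht2, ht3⟩ := (lowerBound.and (h2.and (eventually_ge_atTop (A+1)))).exists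
  have hpos : (0:ℝ) < ((3:ℝ)^((1:ℝ)/3))^((3*t)^3) := by positivity
  have ht0 : (0:ℝ) < ((3*t : ℕ) : ℝ) := by
    have : 0 < 3 * t := by omega
    exact_mod_cast this
  rw [Real.norm_of_nonneg (Nat.cast_nonneg _), Real.norm_of_nonneg (by positivity)] at ht2
  have h3 := ht1.trans ht2
  have h4 : (1/4 : ℝ) * ((3 * t : ℕ) : ℝ) ≤ K := by
    have e1 : (1/4 : ℝ) * ((3 * t : ℕ) : ℝ)^3 * ((3:ℝ)^((1:ℝ)/3))^((3*t)^3) =
        (1/4 * ((3 * t : ℕ) : ℝ)) * (((3 * t : ℕ) : ℝ)^(3-1) * ((3:ℝ)^((1:ℝ)/3))^((3*t)^3)) := by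
      norm_num
      ring
    rw [e1] at h3
    exact le_of_mul_le_mul_right h3 (by positivity)
  have h5 : (A:ℝ) ≤ ((3*t : ℕ) : ℝ) := by
    have : A ≤ 3 * t := by omega
    exact_mod_cast this
  linarith

end Pool.Agent.Results.MP_13da68_co.QuestionTwoFails
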